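import Mathlib.Analysis.InnerProductSpace.PiL2
import Mathlib.Analysis.Calculus.Deriv.Shift
import Mathlib.MeasureTheory.Measure.Haar.Unique
import Mathlib.MeasureTheory.Measure.Haar.InnerProductSpace
import Mathlib.MeasureTheory.Integral.IntervalIntegral.AbsolutelyContinuousFun
import Mathlib.Tactic

/-!
# Lipschitz curves, line integrals and the potential of a density
-/

set_option autoImplicit false

open MeasureTheory Measure Set Filter Topology
open scoped ENNReal NNReal

namespace Pool.Agent.Q160.Refl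

variable {X : Type*} [NormedAddCommGroup X] [NormedSpace ℝ X]

/-- The line integral of `ρ` along the curve `γ` restricted to `[a, b]`. -/
noncomputable def lineInt (ρ : X → ℝ≥0∞) (γ : ℝ → X) (a b : ℝ) : ℝ≥0∞ :=
  ∫⁻ t in Icc a b, ρ (γ t) * ‖deriv γ t‖ₑ

theorem lineInt_self (ρ : X → ℝ≥0∞) (γ : ℝ → X) (a : ℝ) : lineInt ρ γ a a = 0 := by
  simp [lineInt]

theorem lineInt_shift (ρ : X → ℝ≥0∞) (γ : ℝ → X) (a b c : ℝ) :
    lineInt ρ (fun t => γ (t + c)) a b = lineInt ρ γ (a + c) (b + c) := by
  rw [lineInt, lineInt]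
  have hmp : MeasurePreserving (fun t : ℝ => t + c) volume volume := measurePreserving_add_right _ c
  have hemb : MeasurableEmbedding (fun t : ℝ => t + c) := measurableEmbedding_addRight c
  have := hmp.setLIntegral_comp_preimage_emb hemb (fun t => ρ (γ t) * ‖deriv γ t‖ₑ)
    (Icc (a + c) (b + c))
  rw [← this]
  have hpre : (fun t : ℝ => t + c) ⁻¹' Icc (a + c) (b + c) = Icc a b := by
    ext t; simp
  rw [hpre]
  apply lintegral_congr
  intro t
  rw [deriv_comp_add_const]

theorem lineInt_reverse (ρ : X → ℝ≥0∞) (γ : ℝ → X) (a b c : ℝ) :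
    lineInt ρ (fun t => γ (c - t)) a b = lineInt ρ γ (c - b) (c - a) := by
  rw [lineInt, lineInt]
  have hmp : MeasurePreserving (fun t : ℝ => c - t) volume volume :=
    measurePreserving_sub_left volume c
  have hemb : MeasurableEmbedding (fun t : ℝ => c - t) :=
    (MeasurableEquiv.subLeft c).measurableEmbedding
  have := hmp.setLIntegral_comp_preimage_emb hemb (fun t => ρ (γ t) * ‖deriv γ t‖ₑ)
    (Icc (c - b) (c - a))
  rw [← this]
  have hpre : (fun t : ℝ => c - t) ⁻¹' Icc (c - b) (c - a) = Icc a b := by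
    ext t
    constructor
    · rintro ⟨h1, h2⟩
      constructor <;> linarith
    · rintro ⟨h1, h2⟩
      constructor <;> simp <;> linarith
  rw [hpre]
  apply lintegral_congr
  intro t
  rw [deriv_comp_const_sub, enorm_neg]

/-- Concatenation of two curves at time `b`. -/
noncomputable def glue (α β : ℝ → X) (b : ℝ) : ℝ → X := fun t => if t ≤ b then α t else β t

omit [NormedSpace ℝ X] in
theorem glue_lipschitz {α β : ℝ → X} {b : ℝ} (hα : ∃ K, LipschitzWith K α)
    (hβ : ∃ K, LipschitzWith K β) (h : α b = β b) : ∃ K, LipschitzWith K (glue α β b) := by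
  obtain ⟨K, hK⟩ := hα
  obtain ⟨L, hL⟩ := hβ
  refine ⟨max K L, ?_⟩
  have hKm := hK.weaken (le_max_left K L)
  have hLm := hL.weaken (le_max_right K L)
  set M := max K L with hM
  have key : ∀ s t : ℝ, s ≤ t → dist (glue α β b s) (glue α β b t) ≤ M * dist s t := by
    intro s t hst
    by_cases ht : t ≤ b
    · have hs : s ≤ b := hst.trans ht
      simp only [glue, if_pos hs, if_pos ht]
      exact hKm.dist_le_mul _ _
    · by_cases hs : s ≤ b
      · simp only [glue, if_pos hs, if_neg ht]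
        push Not at ht
        have d1 : dist (α s) (β t) ≤ dist (α s) (α b) + dist (β b) (β t) := by
          rw [← h]; exact dist_triangle _ _ _
        have d2 := hKm.dist_le_mul s b
        have d3 := hLm.dist_le_mul b t
        have e1 : dist s b = b - s := by rw [dist_comm, Real.dist_eq, abs_of_nonneg]; linarith
        have e2 : dist b t = t - b := by rw [dist_comm, Real.dist_eq, abs_of_nonneg]; linarith
        have e3 : dist s t = t - s := by rw [dist_comm, Real.dist_eq, abs_of_nonneg]; linarith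
        rw [e1] at d2
        rw [e2] at d3
        rw [e3]
        calc dist (α s) (β t) ≤ M * (b - s) + M * (t - b) := by linarith
          _ = M * (t - s) := by ring
      · simp only [glue, if_neg hs, if_neg ht]
        exact hLm.dist_le_mul _ _
  apply LipschitzWith.of_dist_le_mul
  intro s t
  rcases le_total s t with h1 | h1
  · exact key s t h1
  · rw [dist_comm, dist_comm s t]
    exact key t s h1

theorem lineInt_glue (ρ : X → ℝ≥0∞) (α β : ℝ → X) {a b c : ℝ} (hab : a ≤ b) (hbc : b ≤ c) :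
    lineInt ρ (glue α β b) a c = lineInt ρ α a b + lineInt ρ β b c := by
  have hunion : Icc a c = Icc a b ∪ Ioc b c := (Icc_union_Ioc_eq_Icc hab hbc).symm
  have hdisj : Disjoint (Icc a b) (Ioc b c) := by
    rw [Set.disjoint_left]
    intro x hx hx'
    exact absurd hx.2 (not_le.2 hx'.1)
  rw [lineInt, hunion, lintegral_union measurableSet_Ioc hdisj]
  congr 1
  · rw [lineInt, ← restrict_Ioo_eq_restrict_Icc]
    apply setLIntegral_congr_fun measurableSet_Ioo
    intro t ht
    have he : glue α β b =ᶠ[𝓝 t] α := by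
      filter_upwards [Iio_mem_nhds ht.2] with s hs
      simp only [glue, if_pos (le_of_lt (show s < b from hs))]
    change ρ (glue α β b t) * ‖deriv (glue α β b) t‖ₑ = ρ (α t) * ‖deriv α t‖ₑ
    rw [he.deriv_eq, he.eq_of_nhds]
  · rw [lineInt, ← restrict_Ioc_eq_restrict_Icc]
    apply setLIntegral_congr_fun measurableSet_Ioc
    intro t ht
    have he : glue α β b =ᶠ[𝓝 t] β := by
      filter_upwards [Ioi_mem_nhds ht.1] with s hs
      simp only [glue, if_neg (not_le.2 (show b < s from hs))]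
    change ρ (glue α β b t) * ‖deriv (glue α β b) t‖ₑ = ρ (β t) * ‖deriv β t‖ₑ
    rw [he.deriv_eq, he.eq_of_nhds]

/-- The potential: infimum of the line integrals over Lipschitz curves from `E` to `x`. -/
noncomputable def pot (ρ : X → ℝ≥0∞) (E : Set X) (x : X) : ℝ≥0∞ :=
  ⨅ (γ : ℝ → X) (a : ℝ) (b : ℝ) (_ : a ≤ b) (_ : ∃ K, LipschitzWith K γ) (_ : γ a ∈ E)
    (_ : γ b = x), lineInt ρ γ a b

theorem pot_le {ρ : X → ℝ≥0∞} {E : Set X} {γ : ℝ → X} {a b : ℝ} (hab : a ≤ b)
    (hγ : ∃ K, LipschitzWith K γ) (ha : γ a ∈ E) : pot ρ E (γ b) ≤ lineInt ρ γ a b := by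
  refine iInf_le_of_le γ (iInf_le_of_le a (iInf_le_of_le b ?_))
  simp [hab, hγ, ha]

theorem pot_eq_zero {ρ : X → ℝ≥0∞} {E : Set X} {x : X} (hx : x ∈ E) : pot ρ E x = 0 := by
  have h := pot_le (ρ := ρ) (E := E) (γ := fun _ : ℝ => x) (a := 0) (b := 0) le_rfl
    ⟨0, LipschitzWith.const x⟩ hx
  rw [lineInt_self] at h
  exact le_antisymm h bot_le

theorem pot_step {ρ : X → ℝ≥0∞} {E : Set X} {γ : ℝ → X} (hγ : ∃ K, LipschitzWith K γ)
    {s t : ℝ} (hst : s ≤ t) : pot ρ E (γ t) ≤ pot ρ E (γ s) + lineInt ρ γ s t := by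
  by_cases htop : lineInt ρ γ s t = ⊤
  · rw [htop]; simp
  rw [← tsub_le_iff_right]
  rw [pot]
  refine le_iInf fun α => le_iInf fun a => le_iInf fun b => le_iInf fun hab => le_iInf fun hα =>
    le_iInf fun ha => le_iInf fun hb => ?_
  rw [← pot]
  rw [tsub_le_iff_right]
  -- concatenate α with the shifted γ
  set β : ℝ → X := fun τ => γ (τ + (s - b)) with hβ
  have hβL : ∃ K, LipschitzWith K β := by
    obtain ⟨K, hK⟩ := hγ
    refine ⟨K, ?_⟩
    apply LipschitzWith.of_dist_le_mul
    intro x y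
    calc dist (β x) (β y) ≤ K * dist (x + (s - b)) (y + (s - b)) := hK.dist_le_mul _ _
      _ = K * dist x y := by rw [dist_add_right]
  have hβb : α b = β b := by rw [hβ, hb]; congr 1; ring
  have h1 := glue_lipschitz hα hβL hβb
  have h2 := lineInt_glue ρ α β hab (show b ≤ b + (t - s) by linarith)
  have h3 : glue α β b a ∈ E := by
    simp only [glue, if_pos hab]; exact ha
  have h4 := pot_le (ρ := ρ) (E := E) (b := b + (t - s)) (show a ≤ b + (t - s) by linarith) h1 h3
  have h5 : glue α β b (b + (t - s)) = γ t := by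
    rcases hst.eq_or_lt with h | h
    · have : b + (t - s) = b := by rw [h]; ring
      rw [this]
      simp only [glue, if_pos le_rfl]
      rw [hβb, hβ, ← h]
      ring_nf
    · have : ¬ (b + (t - s) ≤ b) := by push Not; linarith
      simp only [glue, if_neg this, hβ]
      congr 1; ring
  rw [h5, h2] at h4
  refine h4.trans (add_le_add le_rfl ?_)
  rw [hβ, lineInt_shift]
  apply le_of_eq
  have e1 : b + (s - b) = s := by ring
  have e2 : b + (t - s) + (s - b) = t := by ring
  rw [e1, e2]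

theorem pot_step' {ρ : X → ℝ≥0∞} {E : Set X} {γ : ℝ → X} (hγ : ∃ K, LipschitzWith K γ)
    {s t : ℝ} (hst : s ≤ t) : pot ρ E (γ s) ≤ pot ρ E (γ t) + lineInt ρ γ s t := by
  have hβL : ∃ K, LipschitzWith K (fun τ => γ (s + t - τ)) := by
    obtain ⟨K, hK⟩ := hγ
    refine ⟨K, ?_⟩
    apply LipschitzWith.of_dist_le_mul
    intro x y
    calc dist (γ (s + t - x)) (γ (s + t - y)) ≤ K * dist (s + t - x) (s + t - y) :=
          hK.dist_le_mul _ _
      _ = K * dist x y := by rw [dist_sub_left]
  have h := pot_step (ρ := ρ) (E := E) hβL hst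
  rw [lineInt_reverse] at h
  have e1 : s + t - t = s := by ring
  have e2 : s + t - s = t := by ring
  simpa [e1, e2] using h

/-- The truncated potential. -/
noncomputable def upot (ρ : X → ℝ≥0∞) (E : Set X) (x : X) : ℝ := (min 1 (pot ρ E x)).toReal

theorem upot_nonneg (ρ : X → ℝ≥0∞) (E : Set X) (x : X) : 0 ≤ upot ρ E x := ENNReal.toReal_nonneg

theorem upot_le_one (ρ : X → ℝ≥0∞) (E : Set X) (x : X) : upot ρ E x ≤ 1 := by
  rw [upot, ← ENNReal.toReal_one]
  exact ENNReal.toReal_mono ENNReal.one_ne_top (min_le_left _ _)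

theorem upot_eq_zero {ρ : X → ℝ≥0∞} {E : Set X} {x : X} (hx : x ∈ E) : upot ρ E x = 0 := by
  simp [upot, pot_eq_zero hx]

theorem upot_diff {ρ : X → ℝ≥0∞} {E : Set X} {γ : ℝ → X} (hγ : ∃ K, LipschitzWith K γ)
    {s t : ℝ} (hst : s ≤ t) (hfin : lineInt ρ γ s t ≠ ⊤) :
    |upot ρ E (γ t) - upot ρ E (γ s)| ≤ (lineInt ρ γ s t).toReal := by
  have aux : ∀ x y I : ℝ≥0∞, I ≠ ⊤ → x ≤ y + I →
      (min 1 x).toReal ≤ (min 1 y).toReal + I.toReal := by
    intro x y I hI hxy
    have h1 : min 1 x ≤ min 1 y + I := by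
      rcases le_total 1 y with h | h
      · rw [min_eq_left h]
        exact (min_le_left _ _).trans le_self_add
      · rw [min_eq_right h]
        exact (min_le_right _ _).trans hxy
    have hy : min 1 y ≠ ⊤ := ne_top_of_le_ne_top ENNReal.one_ne_top (min_le_left _ _)
    rw [← ENNReal.toReal_add hy hI]
    exact ENNReal.toReal_mono (ENNReal.add_ne_top.2 ⟨hy, hI⟩) h1
  have h1 := aux _ _ _ hfin (pot_step (ρ := ρ) (E := E) hγ hst)
  have h2 := aux _ _ _ hfin (pot_step' (ρ := ρ) (E := E) hγ hst)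
  rw [abs_le]
  simp only [upot]
  constructor <;> linarith

end Pool.Agent.Q160.Refl
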