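import Mathlib.MeasureTheory.Constructions.Pi
import Mathlib.MeasureTheory.Constructions.BorelSpace.Metrizable
import Mathlib.MeasureTheory.Measure.Lebesgue.Basic
import Mathlib.MeasureTheory.Function.Floor
import Mathlib.Tactic

/-!
# A function continuous along almost every coordinate line is almost everywhere measurable
-/

set_option autoImplicit false

open MeasureTheory Measure Set Filter Topology
open scoped ENNReal

namespace Pool.Agent.Q160.Refl

/-- The two-variable step. -/
theorem aemeasurable_of_slices {n : ℕ} (g : ℝ × (Fin n → ℝ) → ℝ)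
    (h0 : ∀ᵐ y : Fin n → ℝ, Continuous (fun t : ℝ => g (t, y)))
    (h1 : ∀ᵐ s : ℝ, AEMeasurable (fun y : Fin n → ℝ => g (s, y))) :
    AEMeasurable g := by
  -- grid points in the conull set
  have hgrid : ∀ (k : ℕ) (i : ℤ), ∃ s : ℝ, (i : ℝ) / 2 ^ k ≤ s ∧ s ≤ ((i : ℝ) + 1) / 2 ^ k ∧
      AEMeasurable (fun y : Fin n → ℝ => g (s, y)) := by
    intro k i
    have hpos : volume (Icc ((i : ℝ) / 2 ^ k) (((i : ℝ) + 1) / 2 ^ k)) ≠ 0 := by
      rw [Real.volume_Icc, ne_eq, ENNReal.ofReal_eq_zero, not_le, sub_pos]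
      gcongr
      linarith
    by_contra hcon
    push Not at hcon
    apply hpos
    refine measure_mono_null ?_ h1
    intro s hs hsm
    exact hcon s hs.1 hs.2 hsm
  choose σ hσ1 hσ2 hσ3 using hgrid
  let h : ℕ → ℤ → (Fin n → ℝ) → ℝ := fun k i => (hσ3 k i).mk _
  have hm : ∀ k i, Measurable (h k i) := fun k i => (hσ3 k i).measurable_mk
  have he : ∀ k i, (fun y : Fin n → ℝ => g (σ k i, y)) =ᵐ[volume] h k i :=
    fun k i => (hσ3 k i).ae_eq_mk
  let G : ℕ → ℝ × (Fin n → ℝ) → ℝ := fun k p => h k ⌊p.1 * 2 ^ k⌋ p.2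
  have hG : ∀ k, Measurable (G k) := by
    intro k
    have h2 : Measurable (fun q : ℤ × (Fin n → ℝ) => h k q.1 q.2) :=
      measurable_from_prod_countable_right (fun i => hm k i)
    have h3 : Measurable (fun p : ℝ × (Fin n → ℝ) => (⌊p.1 * 2 ^ k⌋, p.2)) := by
      apply Measurable.prodMk
      · exact (measurable_fst.mul_const _).floor
      · exact measurable_snd
    exact h2.comp h3
  refine aemeasurable_of_tendsto_metrizable_ae atTop (fun k => (hG k).aemeasurable) ?_
  -- almost everywhere convergence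
  have hall : ∀ᵐ y : Fin n → ℝ, Continuous (fun t : ℝ => g (t, y)) ∧
      ∀ k i, g (σ k i, y) = h k i y := by
    have : ∀ᵐ y : Fin n → ℝ, ∀ k i, g (σ k i, y) = h k i y := by
      rw [ae_all_iff]; intro k
      rw [ae_all_iff]; intro i
      exact he k i
    filter_upwards [h0, this] with y hy1 hy2
    exact ⟨hy1, hy2⟩
  have hsnd : ∀ᵐ p : ℝ × (Fin n → ℝ), Continuous (fun t : ℝ => g (t, p.2)) ∧
      ∀ k i, g (σ k i, p.2) = h k i p.2 := by
    have hq : QuasiMeasurePreserving (Prod.snd : ℝ × (Fin n → ℝ) → (Fin n → ℝ))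
        (volume : Measure (ℝ × (Fin n → ℝ))) volume := by
      rw [Measure.volume_eq_prod]
      exact quasiMeasurePreserving_snd
    exact hq.ae hall
  filter_upwards [hsnd] with p hp
  obtain ⟨hc, hk⟩ := hp
  have hσt : Tendsto (fun k => σ k ⌊p.1 * 2 ^ k⌋) atTop (𝓝 p.1) := by
    have hlim : Tendsto (fun k : ℕ => ((1 : ℝ) / 2) ^ k) atTop (𝓝 0) :=
      tendsto_pow_atTop_nhds_zero_of_lt_one (by norm_num) (by norm_num)
    rw [tendsto_iff_dist_tendsto_zero]
    refine squeeze_zero (fun _ => dist_nonneg) (fun k => ?_) hlim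
    have h2 : (0 : ℝ) < 2 ^ k := by positivity
    have f1 := Int.floor_le (p.1 * 2 ^ k)
    have f2 := Int.lt_floor_add_one (p.1 * 2 ^ k)
    have g1 : ((⌊p.1 * 2 ^ k⌋ : ℤ) : ℝ) / 2 ^ k ≤ p.1 := by rw [div_le_iff₀ h2]; exact f1
    have g2 : p.1 ≤ (((⌊p.1 * 2 ^ k⌋ : ℤ) : ℝ) + 1) / 2 ^ k := by
      rw [le_div_iff₀ h2]; exact f2.le
    have s1 := hσ1 k ⌊p.1 * 2 ^ k⌋
    have s2 := hσ2 k ⌊p.1 * 2 ^ k⌋
    have e1 : (((⌊p.1 * 2 ^ k⌋ : ℤ) : ℝ) + 1) / 2 ^ k =
        ((⌊p.1 * 2 ^ k⌋ : ℤ) : ℝ) / 2 ^ k + (1 / 2) ^ k := by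
      rw [add_div, one_div, one_div, inv_pow]
    rw [Real.dist_eq, abs_le]
    rw [e1] at s2 g2
    constructor <;> linarith
  have := (hc.tendsto p.1).comp hσt
  refine this.congr ?_
  intro k
  exact hk k _

/-- A function on `ℝⁿ` which is continuous along almost every line parallel to a coordinate axis is
almost everywhere measurable. -/
theorem aemeasurable_of_lines : ∀ (n : ℕ) (f : (Fin n → ℝ) → ℝ),
    (∀ i : Fin n, ∀ᵐ x : Fin n → ℝ, Continuous (fun t : ℝ => f (Function.update x i t))) →
    AEMeasurable f := by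
  intro n
  induction n with
  | zero =>
    intro f _
    exact (measurable_of_finite f).aemeasurable
  | succ n ih =>
    intro f hf
    set e := MeasurableEquiv.piFinSuccAbove (fun _ : Fin (n + 1) => ℝ) 0 with he
    have hmp : MeasurePreserving e volume volume :=
      volume_preserving_piFinSuccAbove (fun _ : Fin (n + 1) => ℝ) 0
    have hmps : MeasurePreserving e.symm volume volume := hmp.symm
    have hes : ∀ p : ℝ × (Fin n → ℝ), e.symm p = Fin.cons p.1 p.2 := by
      intro p
      rw [he]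
      ext i
      simp [MeasurableEquiv.piFinSuccAbove]
    set g : ℝ × (Fin n → ℝ) → ℝ := fun p => f (Fin.cons p.1 p.2) with hg
    have hfe : ∀ i : Fin (n + 1), ∀ᵐ p : ℝ × (Fin n → ℝ),
        Continuous (fun t : ℝ => f (Function.update (Fin.cons p.1 p.2 : Fin (n + 1) → ℝ) i t)) := by
      intro i
      have := hmps.quasiMeasurePreserving.ae (hf i)
      filter_upwards [this] with p hp
      rwa [hes] at hp
    have hgm : AEMeasurable g := by
      apply aemeasurable_of_slices
      · have h0 := hfe 0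
        rw [Measure.volume_eq_prod] at h0
        have h1 := ae_ae_of_ae_prod h0
        obtain ⟨s, hs⟩ := h1.exists
        filter_upwards [hs] with y hy
        simpa [hg, Fin.update_cons_zero] using hy
      · have h1 : ∀ i : Fin n, ∀ᵐ s : ℝ, ∀ᵐ y : Fin n → ℝ,
            Continuous (fun t : ℝ => g (s, Function.update y i t)) := by
          intro i
          have h0 := hfe i.succ
          rw [Measure.volume_eq_prod] at h0
          have h2 := ae_ae_of_ae_prod h0
          filter_upwards [h2] with s hs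
          filter_upwards [hs] with y hy
          simpa [hg, Fin.cons_update] using hy
        rw [← ae_all_iff] at h1
        filter_upwards [h1] with s hs
        exact ih _ hs
    have hcomp : f = g ∘ e := by
      ext1 x
      have := hes (e x)
      rw [MeasurableEquiv.symm_apply_apply] at this
      change f x = f (Fin.cons (e x).1 (e x).2)
      rw [← this]
    rw [hcomp]
    exact hgm.comp_quasiMeasurePreserving hmp.quasiMeasurePreserving

end Pool.Agent.Q160.Refl
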