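import Pool.Agent.Q160.Refl.Grid
import Pool.Agent.Q160.Refl.Curves
import Mathlib.Analysis.SpecialFunctions.Pow.NNReal

/-!
# Measurability of the potential of a density
-/

set_option autoImplicit false

open MeasureTheory Measure Set Filter Topology
open scoped ENNReal NNReal

namespace Pool.Agent.Q160.Refl

theorem toReal_setLIntegral {κ : ℝ → ℝ≥0∞} (hκ : Measurable κ) {s t : ℝ} (hst : s ≤ t)
    (hfin : ∫⁻ τ in Icc s t, κ τ ≠ ⊤) :
    IntervalIntegrable (fun τ => (κ τ).toReal) volume s t ∧
    ∫ τ in s..t, (κ τ).toReal = (∫⁻ τ in Icc s t, κ τ).toReal := by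
  have hfin' : ∫⁻ τ in Ioc s t, κ τ ≠ ⊤ := by
    rwa [restrict_Ioc_eq_restrict_Icc]
  have hae : ∀ᵐ τ ∂(volume.restrict (Ioc s t)), κ τ < ⊤ := ae_lt_top hκ hfin'
  constructor
  · rw [intervalIntegrable_iff_integrableOn_Ioc_of_le hst]
    exact integrable_toReal_of_lintegral_ne_top hκ.aemeasurable hfin'
  · rw [intervalIntegral.integral_of_le hst, integral_toReal hκ.aemeasurable hae,
      restrict_Ioc_eq_restrict_Icc]

theorem continuous_of_bound {h : ℝ → ℝ} {κ : ℝ → ℝ≥0∞} (hκ : Measurable κ)
    (hfin : ∀ s t, s ≤ t → ∫⁻ τ in Icc s t, κ τ ≠ ⊤)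
    (hb : ∀ s t, s ≤ t → |h t - h s| ≤ (∫⁻ τ in Icc s t, κ τ).toReal) : Continuous h := by
  have hint : ∀ a b, IntervalIntegrable (fun τ => (κ τ).toReal) volume a b := by
    intro a b
    rcases le_total a b with hab | hab
    · exact (toReal_setLIntegral hκ hab (hfin a b hab)).1
    · exact (toReal_setLIntegral hκ hab (hfin b a hab)).1.symm
  have hK := intervalIntegral.continuous_primitive hint 0
  rw [continuous_iff_continuousAt]
  intro t₀
  have hKt : Tendsto (fun t => |(∫ τ in (0 : ℝ)..t, (κ τ).toReal) -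
      ∫ τ in (0 : ℝ)..t₀, (κ τ).toReal|) (𝓝 t₀) (𝓝 0) := by
    have h1 := (hK.tendsto t₀).sub_const (∫ τ in (0 : ℝ)..t₀, (κ τ).toReal)
    rw [sub_self] at h1
    simpa using h1.abs
  rw [ContinuousAt, tendsto_iff_dist_tendsto_zero]
  refine squeeze_zero (fun _ => dist_nonneg) (fun t => ?_) hKt
  rw [Real.dist_eq]
  have key : ∀ s t, s ≤ t → |h t - h s| ≤ |(∫ τ in (0 : ℝ)..t, (κ τ).toReal) -
      ∫ τ in (0 : ℝ)..s, (κ τ).toReal| := by
    intro s t hst
    rw [intervalIntegral.integral_interval_sub_left (hint _ _) (hint _ _),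
      (toReal_setLIntegral hκ hst (hfin s t hst)).2]
    exact (hb s t hst).trans (le_abs_self _)
  rcases le_total t₀ t with hle | hle
  · exact key _ _ hle
  · rw [abs_sub_comm, abs_sub_comm (∫ τ in (0 : ℝ)..t, (κ τ).toReal)]
    exact key _ _ hle

theorem le_one_add_pow (x : ℝ≥0∞) (n : ℕ) : x ≤ 1 + x ^ (n + 1) := by
  rcases le_total x 1 with h | h
  · exact h.trans le_self_add
  · have : x ≤ x ^ (n + 1) := le_self_pow₀ h (by omega)
    exact this.trans le_add_self

/-- The potential of a `p`-integrable density on Euclidean space is almost everywhere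
measurable. -/
theorem aemeasurable_upot {m : ℕ} {ρ : EuclideanSpace ℝ (Fin (m + 1)) → ℝ≥0∞}
    (hρ : Measurable ρ) (hfin : ∫⁻ x, ρ x ^ (m + 1) ≠ ⊤)
    (E : Set (EuclideanSpace ℝ (Fin (m + 1)))) : AEMeasurable (upot ρ E) := by
  set f : (Fin (m + 1) → ℝ) → ℝ := fun y => upot ρ E (WithLp.toLp 2 y) with hf
  have hto : MeasurePreserving (WithLp.toLp 2 : (Fin (m + 1) → ℝ) →
      EuclideanSpace ℝ (Fin (m + 1))) volume volume := PiLp.volume_preserving_toLp _
  have hof : MeasurePreserving (WithLp.ofLp : EuclideanSpace ℝ (Fin (m + 1)) →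
      (Fin (m + 1) → ℝ)) volume volume := PiLp.volume_preserving_ofLp _
  have hfm : AEMeasurable f := by
    apply aemeasurable_of_lines
    intro i
    set e := MeasurableEquiv.piFinSuccAbove (fun _ : Fin (m + 1) => ℝ) i with he
    have hmp : MeasurePreserving e volume volume :=
      volume_preserving_piFinSuccAbove (fun _ : Fin (m + 1) => ℝ) i
    set G : (Fin (m + 1) → ℝ) → ℝ≥0∞ := fun y => ρ (WithLp.toLp 2 y) ^ (m + 1) with hG
    have hGm : Measurable G := (hρ.comp hto.measurable).pow_const _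
    have hGfin : ∫⁻ y, G y ≠ ⊤ := by
      have := hto.lintegral_comp (hρ.pow_const (m + 1))
      rw [hG]
      rwa [this]
    have hsym : ∀ p : ℝ × (Fin m → ℝ), e.symm p = i.insertNth p.1 p.2 := by
      intro p
      rfl
    have hprod : ∫⁻ p : ℝ × (Fin m → ℝ), G (i.insertNth p.1 p.2) ≠ ⊤ := by
      have := hmp.symm.lintegral_comp hGm
      simp_rw [hsym] at this
      rwa [this]
    have hGi : Measurable (fun p : ℝ × (Fin m → ℝ) => G (i.insertNth p.1 p.2)) := by
      exact hGm.comp e.symm.measurable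
    rw [Measure.volume_eq_prod, lintegral_prod_symm _ hGi.aemeasurable] at hprod
    have hae : ∀ᵐ z : Fin m → ℝ, ∫⁻ s : ℝ, G (i.insertNth s z) < ⊤ :=
      ae_lt_top hGi.lintegral_prod_left' hprod
    have hsnd : QuasiMeasurePreserving (fun y : Fin (m + 1) → ℝ => (e y).2) volume volume := by
      have h1 : QuasiMeasurePreserving (Prod.snd : ℝ × (Fin m → ℝ) → (Fin m → ℝ))
          (volume : Measure (ℝ × (Fin m → ℝ))) volume := by
        rw [Measure.volume_eq_prod]
        exact quasiMeasurePreserving_snd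
      exact h1.comp hmp.quasiMeasurePreserving
    filter_upwards [hsnd.ae hae] with y hy
    have hupd : ∀ t : ℝ, Function.update y i t = i.insertNth t (e y).2 := by
      intro t
      have : (e y).2 = i.removeNth y := rfl
      rw [this, Fin.insertNth_removeNth]
    set γ : ℝ → EuclideanSpace ℝ (Fin (m + 1)) := fun t => WithLp.toLp 2 (Function.update y i t)
      with hγ
    have hγ' : ∀ t, γ t = γ 0 + t • EuclideanSpace.single i (1 : ℝ) := by
      intro t
      ext j
      rw [hγ]
      by_cases hj : j = i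
      · subst hj; simp
      · simp [hj]
    have hd : ∀ t, HasDerivAt γ (EuclideanSpace.single i (1 : ℝ)) t := by
      intro t
      have h1 : γ = fun t => γ 0 + t • EuclideanSpace.single i (1 : ℝ) := funext hγ'
      rw [h1]
      simpa using ((hasDerivAt_id t).smul_const (EuclideanSpace.single i (1 : ℝ))).const_add (γ 0)
    have hnorm : ∀ t, ‖deriv γ t‖ₑ = 1 := by
      intro t
      rw [(hd t).deriv, ← ofReal_norm]
      simp
    have hL : ∃ K, LipschitzWith K γ := by
      refine ⟨1, LipschitzWith.of_dist_le_mul fun s t => ?_⟩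
      rw [hγ' s, hγ' t, dist_add_left, dist_eq_norm, ← sub_smul, norm_smul, dist_eq_norm]
      simp
    have hline : ∀ s t, lineInt ρ γ s t = ∫⁻ τ in Icc s t, ρ (γ τ) := by
      intro s t
      rw [lineInt]
      simp_rw [hnorm, mul_one]
    have hcont : Continuous γ := hL.choose_spec.continuous
    have hlfin : ∀ s t, s ≤ t → ∫⁻ τ in Icc s t, ρ (γ τ) ≠ ⊤ := by
      intro s t _
      apply ne_of_lt
      calc ∫⁻ τ in Icc s t, ρ (γ τ) ≤ ∫⁻ τ in Icc s t, (1 + ρ (γ τ) ^ (m + 1)) :=
            lintegral_mono fun τ => le_one_add_pow _ _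
        _ = (∫⁻ τ in Icc s t, 1) + ∫⁻ τ in Icc s t, ρ (γ τ) ^ (m + 1) :=
            lintegral_add_left measurable_const _
        _ ≤ (∫⁻ τ in Icc s t, 1) + ∫⁻ τ, ρ (γ τ) ^ (m + 1) := by
            exact add_le_add le_rfl (setLIntegral_le_lintegral _ _)
        _ < ⊤ := by
            apply ENNReal.add_lt_top.2
            constructor
            · simp
            · have : ∀ τ, ρ (γ τ) ^ (m + 1) = G (i.insertNth τ (e y).2) := by
                intro τ
                rw [hG, ← hupd τ]
              simp_rw [this]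
              exact hy
    apply continuous_of_bound (κ := fun τ => ρ (γ τ)) (hρ.comp hcont.measurable) hlfin
    intro s t hst
    have := upot_diff (ρ := ρ) (E := E) hL hst (by rw [hline]; exact hlfin s t hst)
    rw [hline] at this
    exact this
  have : upot ρ E = f ∘ WithLp.ofLp := by
    ext x
    rfl
  rw [this]
  exact hfm.comp_quasiMeasurePreserving hof.quasiMeasurePreserving

end Pool.Agent.Q160.Refl
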