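import Mathlib.MeasureTheory.Integral.IntervalIntegral.AbsolutelyContinuousFun
import Mathlib.Analysis.Calculus.LocalExtr.Basic
import Mathlib.Tactic

/-!
# Polarization of two absolutely continuous functions on an interval
-/

set_option autoImplicit false

open MeasureTheory Measure Set Filter Topology

namespace Pool.Agent.Q160.Refl

/-- Domination by an integrable density implies absolute continuity. -/
theorem ac_of_le {a b : ℝ} (hab : a ≤ b) {A α : ℝ → ℝ} (hα : IntervalIntegrable α volume a b)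
    (h : ∀ s t, a ≤ s → s ≤ t → t ≤ b → |A t - A s| ≤ ∫ τ in s..t, α τ) :
    AbsolutelyContinuousOnInterval A a b := by
  have hK : AbsolutelyContinuousOnInterval (fun x => ∫ τ in a..x, α τ) a b :=
    hα.absolutelyContinuousOnInterval_intervalIntegral (by simp)
  rw [absolutelyContinuousOnInterval_iff] at hK ⊢
  intro ε hε
  obtain ⟨δ, hδ, H⟩ := hK ε hε
  refine ⟨δ, hδ, fun E hE hEδ => ?_⟩
  refine lt_of_le_of_lt ?_ (H E hE hEδ)
  apply Finset.sum_le_sum
  intro i hi
  have hmem := hE.1 i hi
  rw [uIcc_of_le hab] at hmem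
  obtain ⟨h1, h2⟩ := hmem
  have hint : ∀ x ∈ Icc a b, IntervalIntegrable α volume a x := by
    intro x hx
    apply hα.mono_set
    rw [uIcc_of_le hab, uIcc_of_le hx.1]
    exact Icc_subset_Icc_right hx.2
  have key : ∀ s t, s ∈ Icc a b → t ∈ Icc a b → s ≤ t →
      |A t - A s| ≤ |(∫ τ in a..t, α τ) - ∫ τ in a..s, α τ| := by
    intro s t hs ht hst
    rw [intervalIntegral.integral_interval_sub_left (hint t ht) (hint s hs)]
    exact (h s t hs.1 hst ht.2).trans (le_abs_self _)
  rw [Real.dist_eq, Real.dist_eq]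
  rcases le_total (E.2 i).1 (E.2 i).2 with hle | hle
  · rw [abs_sub_comm, abs_sub_comm (∫ τ in a..(E.2 i).1, α τ)]
    exact key _ _ h1 h2 hle
  · exact key _ _ h2 h1 hle

/-- The derivative is dominated by the density almost everywhere. -/
theorem deriv_le_ae {a b : ℝ} (hab : a ≤ b) {A α : ℝ → ℝ} (hα : IntervalIntegrable α volume a b)
    (hα0 : ∀ t, 0 ≤ α t)
    (h : ∀ s t, a ≤ s → s ≤ t → t ≤ b → |A t - A s| ≤ ∫ τ in s..t, α τ) :
    ∀ᵐ t, t ∈ Ioo a b → DifferentiableAt ℝ A t ∧ |deriv A t| ≤ α t := by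
  have hAC := ac_of_le hab hα h
  have h1 := hAC.ae_differentiableAt
  have h2 := hα.ae_hasDerivAt_integral
  filter_upwards [h1, h2] with t ht1 ht2 htab
  have htm : t ∈ uIcc a b := by rw [uIcc_of_le hab]; exact ⟨htab.1.le, htab.2.le⟩
  have hd := ht1 htm
  refine ⟨hd, ?_⟩
  have hK := ht2 htm a (by simp)
  have hA := hd.hasDerivAt
  have hAt := (hasDerivAt_iff_tendsto_slope.1 hA).norm
  have hKt := (hasDerivAt_iff_tendsto_slope.1 hK).norm
  have hle : ∀ᶠ s in 𝓝[≠] t, ‖slope A t s‖ ≤ ‖slope (fun x => ∫ τ in a..x, α τ) t s‖ := by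
    have hnb : Ioo a b ∈ 𝓝[≠] t := mem_nhdsWithin_of_mem_nhds (Ioo_mem_nhds htab.1 htab.2)
    filter_upwards [hnb] with s hs
    rw [slope_def_field, slope_def_field, norm_div, norm_div]
    apply div_le_div_of_nonneg_right _ (norm_nonneg _)
    have hint : ∀ x ∈ Icc a b, IntervalIntegrable α volume a x := by
      intro x hx
      apply hα.mono_set
      rw [uIcc_of_le hab, uIcc_of_le hx.1]
      exact Icc_subset_Icc_right hx.2
    have key : ∀ s t, s ∈ Icc a b → t ∈ Icc a b → s ≤ t →
        |A t - A s| ≤ |(∫ τ in a..t, α τ) - ∫ τ in a..s, α τ| := by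
      intro s t hs ht hst
      rw [intervalIntegral.integral_interval_sub_left (hint t ht) (hint s hs)]
      exact (h s t hs.1 hst ht.2).trans (le_abs_self _)
    rw [Real.norm_eq_abs, Real.norm_eq_abs]
    have htI : t ∈ Icc a b := ⟨htab.1.le, htab.2.le⟩
    have hsI : s ∈ Icc a b := ⟨hs.1.le, hs.2.le⟩
    rcases le_total s t with hle | hle
    · rw [abs_sub_comm, abs_sub_comm (∫ τ in a..s, α τ)]
      exact key _ _ hsI htI hle
    · exact key _ _ htI hsI hle
  have := le_of_tendsto_of_tendsto hAt hKt hle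
  rw [Real.norm_eq_abs, Real.norm_eq_abs, abs_of_nonneg (hα0 t)] at this
  exact this

/-- The polarization of the pair `(A, B)` with respect to the sign of `z`. -/
noncomputable def pol (A B z : ℝ → ℝ) (t : ℝ) : ℝ :=
  if 0 < z t then min (A t) (B t) else max (A t) (B t)

/-- The density selected by polarization. -/
noncomputable def sel (A B z α β : ℝ → ℝ) (t : ℝ) : ℝ :=
  open Classical in
  if (0 < z t ∧ A t ≤ B t) ∨ (z t ≤ 0 ∧ B t ≤ A t) then α t else β t

/-- **Polarization lemma.** -/
theorem pol_diff_le {a b : ℝ} (hab : a ≤ b) {A B z α β : ℝ → ℝ}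
    (hα : IntervalIntegrable α volume a b) (hβ : IntervalIntegrable β volume a b)
    (hα0 : ∀ t, 0 ≤ α t) (hβ0 : ∀ t, 0 ≤ β t)
    (hA : ∀ s t, a ≤ s → s ≤ t → t ≤ b → |A t - A s| ≤ ∫ τ in s..t, α τ)
    (hB : ∀ s t, a ≤ s → s ≤ t → t ≤ b → |B t - B s| ≤ ∫ τ in s..t, β τ)
    (hz : Continuous z) (hzAB : ∀ t, z t = 0 → A t = B t)
    {ω : ℝ → ℝ} (hω : IntervalIntegrable ω volume a b)
    (hωs : ∀ᵐ t, t ∈ Ioo a b → sel A B z α β t ≤ ω t) :
    pol A B z b - pol A B z a ≤ ∫ t in a..b, ω t := by
  set W := pol A B z with hW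
  have hαβ : IntervalIntegrable (fun t => α t + β t) volume a b := hα.add hβ
  have hsub : ∀ s t, a ≤ s → s ≤ t → t ≤ b → ∀ {κ : ℝ → ℝ}, IntervalIntegrable κ volume a b →
      IntervalIntegrable κ volume s t := by
    intro s t h1 h2 h3 κ hκ
    apply hκ.mono_set
    rw [uIcc_of_le hab, uIcc_of_le h2]
    exact Icc_subset_Icc h1 h3
  -- the bound for minimum and maximum
  have hminmax : ∀ s t, a ≤ s → s ≤ t → t ≤ b →
      |min (A t) (B t) - min (A s) (B s)| ≤ ∫ τ in s..t, (α τ + β τ) ∧
      |max (A t) (B t) - max (A s) (B s)| ≤ ∫ τ in s..t, (α τ + β τ) := by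
    intro s t h1 h2 h3
    have e1 := hA s t h1 h2 h3
    have e2 := hB s t h1 h2 h3
    rw [intervalIntegral.integral_add (hsub s t h1 h2 h3 hα) (hsub s t h1 h2 h3 hβ)]
    have p1 : 0 ≤ ∫ τ in s..t, α τ := (abs_nonneg _).trans e1
    have p2 : 0 ≤ ∫ τ in s..t, β τ := (abs_nonneg _).trans e2
    constructor
    · refine (abs_min_sub_min_le_max _ _ _ _).trans (max_le ?_ ?_) <;> linarith
    · refine (abs_max_sub_max_le_max _ _ _ _).trans (max_le ?_ ?_) <;> linarith
  -- sign constant pieces
  have hpiece : ∀ s t, a ≤ s → s ≤ t → t ≤ b → (∀ τ ∈ Ioo s t, z τ ≠ 0) →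
      |W t - W s| ≤ ∫ τ in s..t, (α τ + β τ) := by
    intro s t h1 h2 h3 hne
    obtain ⟨m1, m2⟩ := hminmax s t h1 h2 h3
    -- at a zero of z the two values agree
    have hW' : ∀ τ, z τ = 0 → W τ = min (A τ) (B τ) ∧ W τ = max (A τ) (B τ) := by
      intro τ hτ
      have := hzAB τ hτ
      simp [hW, pol, hτ, this]
    have hWp : ∀ τ, 0 ≤ z τ → W τ = min (A τ) (B τ) := by
      intro τ hτ
      rcases hτ.eq_or_lt with h | h
      · exact (hW' τ h.symm).1
      · simp [hW, pol, h]
    have hWn : ∀ τ, z τ ≤ 0 → W τ = max (A τ) (B τ) := by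
      intro τ hτ
      simp [hW, pol, not_lt.2 hτ]
    rcases h2.eq_or_lt with heq | hlt
    · rw [heq]; simp
    -- the sign on the open interval
    have hmid : (s + t) / 2 ∈ Ioo s t := ⟨by linarith, by linarith⟩
    have hconn : (∀ τ ∈ Icc s t, 0 ≤ z τ) ∨ (∀ τ ∈ Icc s t, z τ ≤ 0) := by
      have hpre : IsPreconnected (z '' Ioo s t) := (isPreconnected_Ioo).image _ hz.continuousOn
      rcases lt_or_gt_of_ne (hne _ hmid) with hneg | hpos
      · right
        have hIoo : ∀ τ ∈ Ioo s t, z τ ≤ 0 := by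
          intro τ hτ
          by_contra hcon
          push Not at hcon
          have : (0 : ℝ) ∈ z '' Ioo s t := by
            apply hpre.ordConnected.out ⟨_, hmid, rfl⟩ ⟨τ, hτ, rfl⟩
            exact ⟨hneg.le, hcon.le⟩
          obtain ⟨x, hx, hx0⟩ := this
          exact hne x hx hx0
        intro τ hτ
        have hcl : Icc s t ⊆ z ⁻¹' Iic 0 := by
          rw [← closure_Ioo hlt.ne]
          exact closure_minimal hIoo (isClosed_Iic.preimage hz)
        exact hcl hτ
      · left
        have hIoo : ∀ τ ∈ Ioo s t, 0 ≤ z τ := by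
          intro τ hτ
          by_contra hcon
          push Not at hcon
          have : (0 : ℝ) ∈ z '' Ioo s t := by
            apply hpre.ordConnected.out ⟨τ, hτ, rfl⟩ ⟨_, hmid, rfl⟩
            exact ⟨hcon.le, hpos.le⟩
          obtain ⟨x, hx, hx0⟩ := this
          exact hne x hx hx0
        intro τ hτ
        have hcl : Icc s t ⊆ z ⁻¹' Ici 0 := by
          rw [← closure_Ioo hlt.ne]
          exact closure_minimal hIoo (isClosed_Ici.preimage hz)
        exact hcl hτ
    rcases hconn with hc | hc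
    · rw [hWp t (hc t ⟨h2, le_rfl⟩), hWp s (hc s ⟨le_rfl, h2⟩)]
      exact m1
    · rw [hWn t (hc t ⟨h2, le_rfl⟩), hWn s (hc s ⟨le_rfl, h2⟩)]
      exact m2
  -- general bound
  have hWb : ∀ s t, a ≤ s → s ≤ t → t ≤ b → |W t - W s| ≤ ∫ τ in s..t, (α τ + β τ) := by
    intro s t h1 h2 h3
    by_cases hne : ∀ τ ∈ Ioo s t, z τ ≠ 0
    · exact hpiece s t h1 h2 h3 hne
    · push Not at hne
      obtain ⟨τ₀, hτ₀, hτ₀z⟩ := hne
      -- first and last zero
      set Z : Set ℝ := Icc s t ∩ z ⁻¹' {0} with hZ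
      have hZc : IsCompact Z := isCompact_Icc.inter_right (isClosed_singleton.preimage hz)
      have hZne : Z.Nonempty := ⟨τ₀, ⟨hτ₀.1.le, hτ₀.2.le⟩, hτ₀z⟩
      have hp := hZc.sInf_mem hZne
      have hq := hZc.sSup_mem hZne
      set p := sInf Z
      set q := sSup Z
      have hpz : z p = 0 := hp.2
      have hqz : z q = 0 := hq.2
      have hpq : p ≤ q := csInf_le hZc.bddBelow hq
      have i1 : |W p - W s| ≤ ∫ τ in s..p, (α τ + β τ) := by
        apply hpiece s p h1 hp.1.1 (hp.1.2.trans h3)
        intro τ hτ hτz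
        exact absurd (csInf_le hZc.bddBelow (show τ ∈ Z from
          ⟨⟨hτ.1.le, hτ.2.le.trans hp.1.2⟩, hτz⟩)) (not_le.2 hτ.2)
      have i3 : |W t - W q| ≤ ∫ τ in q..t, (α τ + β τ) := by
        apply hpiece q t (h1.trans hq.1.1) hq.1.2 h3
        intro τ hτ hτz
        exact absurd (le_csSup hZc.bddAbove (show τ ∈ Z from
          ⟨⟨hq.1.1.trans hτ.1.le, hτ.2.le⟩, hτz⟩)) (not_le.2 hτ.1)
      have i2 : |W q - W p| ≤ ∫ τ in p..q, (α τ + β τ) := by
        have e1 : W q = min (A q) (B q) := by
          have := hzAB q hqz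
          simp [hW, pol, hqz, this]
        have e2 : W p = min (A p) (B p) := by
          have := hzAB p hpz
          simp [hW, pol, hpz, this]
        rw [e1, e2]
        exact (hminmax p q (h1.trans hp.1.1) hpq (hq.1.2.trans h3)).1
      have hsum : ∫ τ in s..t, (α τ + β τ) = (∫ τ in s..p, (α τ + β τ)) +
          (∫ τ in p..q, (α τ + β τ)) + ∫ τ in q..t, (α τ + β τ) := by
        rw [intervalIntegral.integral_add_adjacent_intervals
          (hsub s p h1 hp.1.1 (hp.1.2.trans h3) hαβ)
          (hsub p q (h1.trans hp.1.1) hpq (hq.1.2.trans h3) hαβ),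
          intervalIntegral.integral_add_adjacent_intervals
          (hsub s q h1 (hp.1.1.trans hpq) (hq.1.2.trans h3) hαβ)
          (hsub q t (h1.trans hq.1.1) hq.1.2 h3 hαβ)]
      calc |W t - W s| = |(W t - W q) + (W q - W p) + (W p - W s)| := by ring_nf
        _ ≤ |W t - W q| + |W q - W p| + |W p - W s| := abs_add_three _ _ _
        _ ≤ _ := by rw [hsum]; linarith
  have hWAC : AbsolutelyContinuousOnInterval W a b := ac_of_le hab hαβ hWb
  have hFTC := hWAC.integral_deriv_eq_sub
  rw [← hFTC]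
  -- minimum is absolutely continuous too
  have dA := deriv_le_ae hab hα hα0 hA
  have dB := deriv_le_ae hab hβ hβ0 hB
  have hm := (ac_of_le hab (A := fun t => min (A t) (B t)) hαβ
    (fun s t h1 h2 h3 => (hminmax s t h1 h2 h3).1)).ae_differentiableAt
  have dW := hWAC.ae_differentiableAt
  apply intervalIntegral.integral_mono_ae_restrict hab hWAC.intervalIntegrable_deriv hω
  have hIoo : ∀ᵐ t, t ∈ Ioo a b → deriv W t ≤ ω t := by
    filter_upwards [dA, dB, hm, dW, hωs] with t h1 h2 h3 h4 h5 ht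
    have htm : t ∈ uIcc a b := by rw [uIcc_of_le hab]; exact ⟨ht.1.le, ht.2.le⟩
    obtain ⟨hAd, hAle⟩ := h1 ht
    obtain ⟨hBd, hBle⟩ := h2 ht
    have hmd := h3 htm
    have hWd := h4 htm
    refine le_trans ?_ (h5 ht)
    refine (le_abs_self _).trans ?_
    by_cases hABt : A t = B t
    · -- tie
      have e1 : deriv (fun s => W s - min (A s) (B s)) t = 0 := by
        apply IsLocalMin.deriv_eq_zero
        apply Filter.Eventually.of_forall
        intro s
        have hv : W t - min (A t) (B t) = 0 := by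
          simp [hW, pol, hABt]
        have hs : 0 ≤ W s - min (A s) (B s) := by
          simp only [hW, pol]
          split_ifs
          · simp
          · have := min_le_max (a := A s) (b := B s); linarith
        change W t - min (A t) (B t) ≤ W s - min (A s) (B s)
        rw [hv]; exact hs
      have e2 : deriv (fun s => A s - min (A s) (B s)) t = 0 := by
        apply IsLocalMin.deriv_eq_zero
        apply Filter.Eventually.of_forall
        intro s
        have hv : A t - min (A t) (B t) = 0 := by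
          simp [hABt]
        have hs : 0 ≤ A s - min (A s) (B s) := by
          have := min_le_left (A s) (B s); linarith
        change A t - min (A t) (B t) ≤ A s - min (A s) (B s)
        rw [hv]; exact hs
      rw [deriv_fun_sub hWd hmd] at e1
      rw [deriv_fun_sub hAd hmd] at e2
      have e3 : deriv W t = deriv A t := by linarith
      rw [e3]
      have hsel : sel A B z α β t = α t := by
        rw [sel, if_pos]
        rcases lt_or_ge 0 (z t) with h | h
        · exact Or.inl ⟨h, hABt.le⟩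
        · exact Or.inr ⟨h, hABt.ge⟩
      rw [hsel]
      exact hAle
    · have hzt : z t ≠ 0 := fun h => hABt (hzAB t h)
      have cA := hAd.continuousAt
      have cB := hBd.continuousAt
      have cz := hz.continuousAt (x := t)
      rcases lt_or_gt_of_ne hzt with hzn | hzp
      · have ez : ∀ᶠ s in 𝓝 t, z s < 0 := cz.eventually (gt_mem_nhds hzn)
        rcases lt_or_gt_of_ne hABt with hlt | hgt
        · -- A < B, W = B
          have eAB : ∀ᶠ s in 𝓝 t, A s < B s := cA.eventually_lt cB hlt
          have hev : W =ᶠ[𝓝 t] B := by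
            filter_upwards [ez, eAB] with s s1 s2
            simp [hW, pol, not_lt.2 s1.le, s2.le]
          rw [hev.deriv_eq]
          have hsel : sel A B z α β t = β t := by
            rw [sel, if_neg]
            rintro (⟨h, _⟩ | ⟨_, h⟩)
            · exact absurd h (not_lt.2 hzn.le)
            · exact absurd h (not_le.2 hlt)
          rw [hsel]; exact hBle
        · have eAB : ∀ᶠ s in 𝓝 t, B s < A s := cB.eventually_lt cA hgt
          have hev : W =ᶠ[𝓝 t] A := by
            filter_upwards [ez, eAB] with s s1 s2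
            simp [hW, pol, not_lt.2 s1.le, s2.le]
          rw [hev.deriv_eq]
          have hsel : sel A B z α β t = α t := by
            rw [sel, if_pos]
            exact Or.inr ⟨hzn.le, hgt.le⟩
          rw [hsel]; exact hAle
      · have ez : ∀ᶠ s in 𝓝 t, 0 < z s := cz.eventually (lt_mem_nhds hzp)
        rcases lt_or_gt_of_ne hABt with hlt | hgt
        · have eAB : ∀ᶠ s in 𝓝 t, A s < B s := cA.eventually_lt cB hlt
          have hev : W =ᶠ[𝓝 t] A := by
            filter_upwards [ez, eAB] with s s1 s2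
            simp [hW, pol, s1, s2.le]
          rw [hev.deriv_eq]
          have hsel : sel A B z α β t = α t := by
            rw [sel, if_pos]
            exact Or.inl ⟨hzp, hlt.le⟩
          rw [hsel]; exact hAle
        · have eAB : ∀ᶠ s in 𝓝 t, B s < A s := cB.eventually_lt cA hgt
          have hev : W =ᶠ[𝓝 t] B := by
            filter_upwards [ez, eAB] with s s1 s2
            simp [hW, pol, s1, s2.le]
          rw [hev.deriv_eq]
          have hsel : sel A B z α β t = β t := by
            rw [sel, if_neg]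
            rintro (⟨_, h⟩ | ⟨h, _⟩)
            · exact absurd h (not_le.2 hgt)
            · exact absurd h (not_le.2 hzp)
          rw [hsel]; exact hBle
  rw [EventuallyLE, ae_restrict_iff' measurableSet_Icc]
  have hends : ∀ᵐ t : ℝ, t ≠ a ∧ t ≠ b := by
    have h1 : ∀ᵐ t : ℝ, t ≠ a := by simp [ae_iff]
    have h2 : ∀ᵐ t : ℝ, t ≠ b := by simp [ae_iff]
    filter_upwards [h1, h2] with t h3 h4 using ⟨h3, h4⟩
  filter_upwards [hIoo, hends] with t h1 h2 ht
  exact h1 ⟨lt_of_le_of_ne ht.1 (Ne.symm h2.1), lt_of_le_of_ne ht.2 h2.2⟩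

end Pool.Agent.Q160.Refl
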